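import Pool.Agent.L7h31.CP.Cor
import Pool.Agent.L7h65.CP.Uni
import Pool.Agent.L7h66.CP.Int
import Pool.Agent.L7h46.CP.Tra
import Pool.Agent.L7h46.CP.Lin
import Pool.Agent.L7h99.CP.Win
import Pool.Agent.L7h75.CP.Img
import Pool.Agent.L7h61.CP.Pl
import Pool.Agent.L7h61.CP.Sg
import Pool.Agent.L7h6.CP.Face
import Pool.Agent.L7h56.CP.Poly
import Pool.Agent.L7h36.CP.Map
import Pool.Agent.L7h15.CE.Vor

set_option autoImplicit false

namespace Pool.Agent.L7h31.CP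

open Pool.Agent.L7h31.CE (S_DST)

theorem dst_ok : S_DST := Pool.Agent.L7h15.CE.s_DST
theorem pl_ok : S_PL := Pool.Agent.L7h61.CP.s_PL dst_ok
theorem face_ok : S_FACE := Pool.Agent.L7h6.CP.s_FACE pl_ok
theorem fac0_ok : S_FAC0 := Pool.Agent.L7h6.CP.s_FAC0 face_ok
theorem fac1_ok : S_FAC1 := Pool.Agent.L7h6.CP.s_FAC1 face_ok
theorem adj_ok : S_ADJ := Pool.Agent.L7h6.CP.s_ADJ
theorem pts_ok : S_PTS := Pool.Agent.L7h56.CP.s_PTS
theorem dis_ok : S_DIS := Pool.Agent.L7h66.CP.s_DIS (Pool.Agent.L7h66.CP.s_INT dst_ok)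
theorem poly_ok : S_POLY := Pool.Agent.L7h56.CP.s_POLY pl_ok
theorem cov_ok : S_COV := Pool.Agent.L7h65.CP.s_COV
theorem til_ok : S_TIL := Pool.Agent.L7h99.CP.s_TIL cov_ok dis_ok poly_ok fac0_ok fac1_ok adj_ok
theorem wst_ok : S_WST := Pool.Agent.L7h61.CP.s_WST Pool.Agent.L7h61.CP.s_SG
theorem win_ok : S_WIN :=
  Pool.Agent.L7h99.CP.s_WIN wst_ok (Pool.Agent.L7h99.CP.s_WIS dst_ok) Pool.Agent.L7h75.CP.s_IMG
theorem cor_ok : S_COR := s_COR win_ok adj_ok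
theorem map_ok : S_MAP := Pool.Agent.L7h36.CP.s_MAP pts_ok dst_ok
theorem non_ok : S_NON := Pool.Agent.L7h46.CP.s_NON Pool.Agent.L7h46.CP.s_LIN
  (Pool.Agent.L7h46.CP.s_TRA map_ok) Pool.Agent.L7h46.CP.s_PER map_ok

theorem final_ok : S_FINAL := by
  intro r K h2 hK
  refine ⟨tiles r, til_ok r, ?_, fun m hm => cor_ok r K hK m hm, non_ok r h2⟩
  intro P hP Q hQ
  obtain ⟨g, hg, _⟩ := cor_ok r K hK 0 (Nat.zero_le _) P hP Q hQ
  exact ⟨g, hg⟩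

end Pool.Agent.L7h31.CP
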