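import Pool.Agent.L7h31.CP.Stm

set_option autoImplicit false

namespace Pool.Agent.L7h31.CP

open Set
open Pool.Agent.L7h31.CE (HS IsPolytope IsFace IsTiling Monohedral Isohedral corona CondB E mk hor ver)

theorem s_COR : S_WIN → S_ADJ → S_COR := by
  intro hG hL r K hr m hm P hP Q hQ
  obtain ⟨i, ν, rfl⟩ := hP
  obtain ⟨j, μ, rfl⟩ := hQ
  obtain ⟨g, δ, hδ, hgP, hg⟩ := hG r K hr i j ν μ
  refine ⟨g, hgP, ?_⟩
  set T := tiles r with hT
  have hδδ : δ * δ = 1 := by rcases hδ with h | h <;> rw [h] <;> norm_num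
  have hδa : ∀ t : ℤ, |δ * t| = |t| := by
    intro t
    rcases hδ with h | h <;> rw [h] <;> simp
  have lev : ∀ (l0 : ℤ) (a0 : Fin r → ℤ) (s : ℕ), ∀ R ∈ corona T (tile l0 a0) s,
      ∃ (t : ℤ) (b : Fin r → ℤ), |t| ≤ s ∧ R = tile (l0 + t) b := by
    intro l0 a0 s
    induction s with
    | zero =>
      intro R hR
      exact ⟨0, a0, by simp, by rw [add_zero]; exact hR⟩
    | succ s ih =>
      rintro R ⟨⟨L, b, rfl⟩, R', hR', hne⟩
      obtain ⟨t', b', h1, rfl⟩ := ih R' hR'
      have h2 := hL r (l0 + t') L b' b hne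
      refine ⟨L - l0, b, ?_, by rw [add_sub_cancel]⟩
      have h3 : L - l0 = (L - (l0 + t')) + t' := by ring
      rw [h3]
      refine (abs_add_le _ _).trans ?_
      push_cast
      linarith
  have fwd : ∀ s : ℕ, s ≤ K → ∀ R ∈ corona T (tile i ν) s,
      g '' R ∈ corona T (tile j μ) s := by
    intro s
    induction s with
    | zero =>
      intro _ R hR
      have hR' : R = tile i ν := hR
      show g '' R = tile j μ
      rw [hR', hgP]
    | succ s ih =>
      intro hs R hR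
      obtain ⟨t, b, ht, hRL⟩ := lev i ν (s + 1) R hR
      obtain ⟨hT', R', hR', hne⟩ := hR
      have h1 : |t| ≤ K := by
        have : ((s + 1 : ℕ) : ℤ) ≤ K := by exact_mod_cast hs
        linarith
      obtain ⟨b', hb'⟩ := (hg t h1).1 b
      refine ⟨⟨_, b', by rw [hRL, hb']⟩, g '' R', ih (by omega) R' hR', ?_⟩
      rw [← Set.image_inter g.injective]
      exact hne.image _
  have bwd : ∀ s : ℕ, s ≤ K → ∀ R ∈ corona T (tile j μ) s,
      ∃ R0 ∈ corona T (tile i ν) s, g '' R0 = R := by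
    intro s
    induction s with
    | zero =>
      intro _ R hR
      have hR' : R = tile j μ := hR
      exact ⟨tile i ν, rfl, by rw [hR', hgP]⟩
    | succ s ih =>
      intro hs R hR
      obtain ⟨t, b', ht, hRL⟩ := lev j μ (s + 1) R hR
      obtain ⟨hT', R', hR', hne⟩ := hR
      have h1 : |δ * t| ≤ K := by
        have : ((s + 1 : ℕ) : ℤ) ≤ K := by exact_mod_cast hs
        rw [hδa]
        linarith
      obtain ⟨b, hb⟩ := (hg (δ * t) h1).2 b'
      rw [← mul_assoc, hδδ, one_mul] at hb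
      obtain ⟨R0, hR0, hgR0⟩ := ih (by omega) R' hR'
      refine ⟨tile (i + δ * t) b, ⟨⟨_, b, rfl⟩, R0, hR0, ?_⟩, by rw [hb, hRL]⟩
      have h2 : (g '' (R0 ∩ tile (i + δ * t) b)).Nonempty := by
        rw [Set.image_inter g.injective, hgR0, hb, ← hRL]
        exact hne
      exact Set.image_nonempty.1 h2
  ext R
  constructor
  · rintro ⟨R0, hR0, rfl⟩
    exact fwd m hm R0 hR0
  · intro hR
    obtain ⟨R0, h1, h2⟩ := bwd m hm R hR
    exact ⟨R0, h1, h2⟩

end Pool.Agent.L7h31.CP
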