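import Pool.Agent.L7h31.CE.Stm

/-!
# Project CP (MP_6d95fe_co): `k_n(E^n) ≥ n - 1` for all `n ≥ 3`

THEOREM. Let `r ≥ 2`, `K + 1 ≤ r`, `n = r + 1`. There is a monohedral face-to-face tiling of euclidean
`n`-space by convex polytopes (parallelepipeds) in which for all `m ≤ K` any two tiles have congruent
`m`-th coronas (by isometries carrying the one tile to the other), but which is not isohedral. So
`k_n(E^n) ≥ K + 1`, and with `K = r - 1`: `k_n(E^n) ≥ n - 1`.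

CONSTRUCTION. The slab `i ≤ y ≤ i + 1` is divided into the parallelepipeds with the bottom `ν + [0,1]^r`,
`ν ∈ ℤ^r`, and the top `ν + v_i + [0,1]^r`, where `v_i = ± e_a`: `a = (i / 2) mod r` (floor division), and the
sign is `-` only if `i / 2 = 0`. All interfaces are the standard cubical grid. An `m`-th corona (`m ≤ K`)
of a tile of the slab `i` only depends on the vectors `v_(i-K), ..., v_(i+K)`, that is on at most `K + 1 ≤ r`
pairs of slabs, so up to signs these vectors are given by different coordinates. Slabs `i`, `j` of the same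
parity are compared by `t ↦ t` (`i + t` and `j + t`), slabs of different parity by `t ↦ -t`.
-/

set_option autoImplicit false

namespace Pool.Agent.L7h31.CP

open scoped BigOperators Topology
open Pool.Agent.L7h31.CE (HS IsPolytope IsFace IsTiling Monohedral Isohedral corona CondB E mk hor ver)

/-- the signs -/
def epsz (P : ℤ) : ℤ := if P = 0 then -1 else 1

/-- the shear of the pair `P` of slabs -/
def ww (r : ℕ) (P : ℤ) (a : Fin r) : ℤ := if P % (r : ℤ) = ((a : ℕ) : ℤ) then epsz P else 0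

/-- the shear of the slab `i` -/
def vz (r : ℕ) (i : ℤ) (a : Fin r) : ℤ := ww r (i / 2) a

/-- local coordinate of the slab `i` -/
noncomputable def lc {r : ℕ} (i : ℤ) (z : E r) (a : Fin r) : ℝ :=
  hor z a - (ver z - i) * (vz r i a : ℝ)

/-- the parallelepipeds -/
def tile {r : ℕ} (i : ℤ) (ν : Fin r → ℤ) : Set (E r) :=
  {z | (i : ℝ) ≤ ver z ∧ ver z ≤ i + 1 ∧ ∀ a, (ν a : ℝ) ≤ lc i z a ∧ lc i z a ≤ ν a + 1}

/-- the tiling -/
def tiles (r : ℕ) : Set (Set (E r)) := {P | ∃ i ν, P = tile i ν}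

/-! ### polytopes and faces. All parts may use `S_DST` of `Pool.Agent.L7h31.CE.Stm`
(proved: `Pool.Agent.L7h15.CE.Vor`) -/

/-- [PL] 40 lines, from `S_DST`. `N = ∑ a, u a ^ 2 + η ^ 2 > 0`, `l = - γ / N - 1 / 2`,
`p = mk (l u) (l η)`, `q = mk ((l + 1) u) ((l + 1) η)`: `dist z q ^ 2 - dist z p ^ 2` is
`-2 ((∑ a, u a * hor z a) + η * ver z + γ)`. -/
def S_PL : Prop := ∀ (r : ℕ) (u : Fin r → ℝ) (η γ : ℝ), (η ≠ 0 ∨ ∃ a, u a ≠ 0) →
  ∃ p q : E r, p ≠ q ∧ ∀ z : E r,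
    (dist z p ≤ dist z q ↔ (∑ a, u a * hor z a) + η * ver z + γ ≤ 0) ∧
    (dist z p = dist z q ↔ (∑ a, u a * hor z a) + η * ver z + γ = 0)

/-- [FACE] 60 lines, from `S_PL`. The functional is the sum of `T a = c a * (lc i z a - ν a) - [c a = 1]` over
`a` and of `v * (ver z - i) - [v = 1]`; all terms are `≤ 0` on the tile, and they are `0` iff the conditions
hold. Coefficients: `u a = c a`, `η = v - ∑ a, c a * vz r i a`. -/
def S_FACE : Prop := ∀ (r : ℕ) (i : ℤ) (ν c : Fin r → ℤ) (v : ℤ), (∀ a, |c a| ≤ 1) → |v| ≤ 1 →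
  (v ≠ 0 ∨ ∃ a, c a ≠ 0) →
  IsFace (tile i ν) {z | z ∈ tile i ν ∧
    (∀ a, (c a = 1 → lc i z a = ν a + 1) ∧ (c a = -1 → lc i z a = ν a)) ∧
    (v = 1 → ver z = i + 1) ∧ (v = -1 → ver z = i)}

/-- [FAC0] 25 lines, from `S_FACE` with `c a = μ a - ν a`, `v = 0` (if the intersection is not empty then
`|c a| ≤ 1`). -/
def S_FAC0 : Prop := ∀ (r : ℕ) (i : ℤ) (ν μ : Fin r → ℤ), ν ≠ μ →
  (tile i ν : Set (E r)) ∩ tile i μ = ∅ ∨ IsFace (tile i ν) (tile i ν ∩ tile i μ)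

/-- [FAC1] 50 lines, from `S_FACE`. Points `z` in both tiles have `ver z = i + 1`,
`lc i z a = hor z a - vz r i a`, `lc (i + 1) z a = hor z a`. First face: `v = 1`,
`c a = μ a - ν a - vz r i a`; second face: `v = -1`, `c a = ν a + vz r i a - μ a`. -/
def S_FAC1 : Prop := ∀ (r : ℕ) (i : ℤ) (ν μ : Fin r → ℤ),
  (tile i ν : Set (E r)) ∩ tile (i + 1) μ = ∅ ∨
    (IsFace (tile i ν) (tile i ν ∩ tile (i + 1) μ) ∧
      IsFace (tile (i + 1) μ) (tile i ν ∩ tile (i + 1) μ))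

/-- [ADJ] 8 lines. -/
def S_ADJ : Prop := ∀ (r : ℕ) (i j : ℤ) (ν μ : Fin r → ℤ),
  ((tile i ν : Set (E r)) ∩ tile j μ).Nonempty → |j - i| ≤ 1

/-- [PTS] 12 lines, from `S_DST`. The local coordinates are `ν a + x a`. -/
def S_PTS : Prop := ∀ (r : ℕ) (i : ℤ) (ν : Fin r → ℤ) (κ : ℝ) (x : Fin r → ℝ), 0 ≤ κ → κ ≤ 1 →
  (∀ a, 0 ≤ x a ∧ x a ≤ 1) →
  (mk (fun a => (ν a : ℝ) + κ * (vz r i a : ℝ) + x a) ((i : ℝ) + κ) : E r) ∈ tile i ν

/-- [UNI] 20 lines, from `S_PTS`, `S_DST`. -/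
def S_UNI : Prop := ∀ (r : ℕ) (i j : ℤ) (ν μ : Fin r → ℤ), (tile i ν : Set (E r)) = tile j μ →
  i = j ∧ ν = μ

/-- [INT] 60 lines, from `S_DST`. If a small ball around `z` is in the tile, move `z` vertically, or in
the direction of the coordinate `a`. -/
def S_INT : Prop := ∀ (r : ℕ) (i : ℤ) (ν : Fin r → ℤ), ∀ z ∈ interior (tile i ν : Set (E r)),
  (i : ℝ) < ver z ∧ ver z < i + 1 ∧ ∀ a, (ν a : ℝ) < lc i z a ∧ lc i z a < ν a + 1

/-- [DIS] 12 lines, from `S_INT`. -/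
def S_DIS : Prop := ∀ (r : ℕ) (i j : ℤ) (ν μ : Fin r → ℤ), (tile i ν : Set (E r)) ≠ tile j μ →
  Disjoint (interior (tile i ν : Set (E r))) (interior (tile j μ))

/-- [INE] 25 lines: the points with strict inequalities are an open set, and
`mk (fun a => ν a + vz r i a / 2 + 1 / 2) (i + 1 / 2)` is one of them. -/
def S_INE : Prop := ∀ (r : ℕ) (i : ℤ) (ν : Fin r → ℤ), (interior (tile i ν : Set (E r))).Nonempty

/-- [CMP] 40 lines, from `S_DST`: closed and bounded. -/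
def S_CMP : Prop := ∀ (r : ℕ) (i : ℤ) (ν : Fin r → ℤ), IsCompact (tile i ν : Set (E r))

/-- [POLY] 60 lines, from `S_INE`, `S_CMP`, `S_PL` (the `2 r + 2` inequalities). -/
def S_POLY : Prop := ∀ (r : ℕ) (i : ℤ) (ν : Fin r → ℤ), IsPolytope (tile i ν : Set (E r))

/-- [COV] 10 lines. -/
def S_COV : Prop := ∀ (r : ℕ) (z : E r), ∃ (i : ℤ) (ν : Fin r → ℤ), z ∈ tile i ν

/-- [TIL] 40 lines, from `S_COV`, `S_DIS`, `S_POLY`, `S_FAC0`, `S_FAC1`, `S_ADJ`. -/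
def S_TIL : Prop := ∀ r : ℕ, IsTiling (tiles r)

/-! ### the coronas -/

/-- [SG] 80 lines. `σ a ≡ δ a + e` modulo `r`, so that `(δ P + e) % r = σ a ↔ P % r = a`; `s a` is
`δ * epsz (δ P + e) * epsz P` for the unique `P` of the window with `P % r = a`, if there is one,
otherwise `1`. -/
def S_SG : Prop := ∀ (r K : ℕ), K + 1 ≤ r → ∀ (δ e P0 : ℤ), (δ = 1 ∨ δ = -1) →
  ∃ (σ : Equiv.Perm (Fin r)) (s : Fin r → ℤ), (∀ a, s a = 1 ∨ s a = -1) ∧
    ∀ P : ℤ, P0 ≤ P → P ≤ P0 + K → ∀ a, ww r (δ * P + e) (σ a) = δ * s a * ww r P a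

/-- [WST] 30 lines, from `S_SG` with `P0 = (i - K) / 2`. If `j - i` is even: `δ = 1`, `e = (j - i) / 2`,
`(j + t) / 2 = (i + t) / 2 + e`. If `j - i` is odd: `δ = -1`, `e = (i + j - 1) / 2`,
`(j - t) / 2 = - ((i + t) / 2) + e`. -/
def S_WST : Prop := ∀ (r K : ℕ), K + 1 ≤ r → ∀ i j : ℤ,
  ∃ (σ : Equiv.Perm (Fin r)) (s : Fin r → ℤ) (δ : ℤ), (∀ a, s a = 1 ∨ s a = -1) ∧
    (δ = 1 ∨ δ = -1) ∧
    ∀ t : ℤ, |t| ≤ K → ∀ a, vz r (j + δ * t) (σ a) = δ * s a * vz r (i + t) a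

/-- [WIS] 50 lines, from `S_DST` (compare `s_WIS` in `Pool.Agent.L7h99.CE.Eu`). -/
def S_WIS : Prop := ∀ (r : ℕ) (σ : Equiv.Perm (Fin r)) (s b : Fin r → ℝ) (δ β : ℝ),
  (∀ a, s a = 1 ∨ s a = -1) → (δ = 1 ∨ δ = -1) →
  ∃ g : E r ≃ᵢ E r, ∀ z, (∀ a, hor (g z) (σ a) = s a * hor z a + b (σ a)) ∧
    ver (g z) = δ * ver z + β

/-- [IMG] 60 lines. `z ∈ tile i ν ↔ g z ∈ tile j μ`. If `δ = 1`: `ver (g z) - j = ver z - i` and
`lc j (g z) (σ a) = s a * lc i z a + b (σ a)`. If `δ = -1`: `ver (g z) - j = 1 - (ver z - i)` and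
`lc j (g z) (σ a) = s a * lc i z a + b (σ a) + s a * vz r i a`. -/
def S_IMG : Prop := ∀ (r : ℕ) (g : E r ≃ᵢ E r) (σ : Equiv.Perm (Fin r)) (s b : Fin r → ℤ) (δ β : ℤ),
  (∀ a, s a = 1 ∨ s a = -1) → (δ = 1 ∨ δ = -1) →
  (∀ z, (∀ a, hor (g z) (σ a) = s a * hor z a + b (σ a)) ∧ ver (g z) = δ * ver z + β) →
  ∀ (i j : ℤ) (ν μ : Fin r → ℤ), (δ = 1 → j = i + β) → (δ = -1 → j = β - i - 1) →
  (∀ a, vz r j (σ a) = δ * s a * vz r i a) →
  (∀ a, μ (σ a) = s a * ν a + b (σ a) + (if δ = -1 then s a * vz r i a else 0) +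
    (if s a = -1 then -1 else 0)) →
  g '' tile i ν = tile j μ

/-- [WIN] 60 lines, from `S_WST`, `S_WIS`, `S_IMG`. `β = j - i` (`δ = 1`) or `i + j + 1` (`δ = -1`), and
`b (σ a)` is determined by the equation for `ν`, `μ` in `S_IMG`. -/
def S_WIN : Prop := ∀ (r K : ℕ), K + 1 ≤ r → ∀ (i j : ℤ) (ν μ : Fin r → ℤ),
  ∃ (g : E r ≃ᵢ E r) (δ : ℤ), (δ = 1 ∨ δ = -1) ∧ g '' tile i ν = tile j μ ∧ ∀ t : ℤ, |t| ≤ K →
    (∀ ν', ∃ μ', g '' tile (i + t) ν' = tile (j + δ * t) μ') ∧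
    (∀ μ', ∃ ν', g '' tile (i + t) ν' = tile (j + δ * t) μ')

/-- [COR] 80 lines, from `S_WIN`, `S_ADJ` (compare `Pool.Agent.L7h31.CE.s_COR`). -/
def S_COR : Prop := ∀ r K : ℕ, K + 1 ≤ r → ∀ m : ℕ, m ≤ K → CondB (tiles r) m

/-! ### the tiling is not isohedral -/

/-- [MAP] 80 lines, from `S_PTS`, `S_DST`. The four points of `S_PTS` for `κ ∈ {0, 1}` and `x = 0`, `x = 1`
are mapped to points of `tile j μ`. Vertical coordinates: `β`; then the images of the points with `κ = 0`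
have the vertical coordinate `j` (`δ = 1`) or `j + 1` (`δ = -1`), those of the points with `κ = 1` have the
other one, and an interval of length one is mapped into an interval of length one. For instance for
`δ = 1`, `s a = 1`: `b (σ a) = μ (σ a) - ν a` and `vz r i a + b (σ a) - vz r j (σ a) = μ (σ a) - ν a`. -/
def S_MAP : Prop := ∀ (r : ℕ) (i j : ℤ) (ν μ : Fin r → ℤ) (g : E r → E r)
  (σ : Equiv.Perm (Fin r)) (s b : Fin r → ℝ) (δ β : ℝ), (∀ a, s a = 1 ∨ s a = -1) →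
  (δ = 1 ∨ δ = -1) → (∀ z, (∀ a, hor (g z) (σ a) = s a * hor z a + b (σ a)) ∧
    ver (g z) = δ * ver z + β) →
  g '' tile i ν = tile j μ →
  (δ = 1 → β = j - i) ∧ (δ = -1 → β = i + j + 1) ∧
    (∀ a, (vz r j (σ a) : ℝ) = δ * s a * (vz r i a : ℝ)) ∧ ∀ a, ∃ m : ℤ, b (σ a) = m

/-- [TRA] 50 lines, from `S_MAP` (with `σ = 1`, `s = 1`, `δ = 1`, `b = hor τ`, `β = ver τ`) and `S_DST`.
`tile i 0` is mapped to some `tile j μ` with `ver τ = j - i`, so `j - i = s` is the same number for all `i`,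
and `vz r (i + s) a = vz r i a`. Now `vz r i 0 = -1` iff `i ∈ {0, 1}`; so `s, s + 1 ∈ {0, 1}`, `s = 0`. -/
def S_TRA : Prop := ∀ r : ℕ, 2 ≤ r → ∀ τ : E r,
  (fun A => (fun z => τ + z) '' A) '' tiles r = tiles r → ver τ = 0 ∧ ∀ a, ∃ m : ℤ, hor τ a = m

/-- [PER] 30 lines, from `S_DST`: `τ + tile i ν = tile i (ν + τ)`. -/
def S_PER : Prop := ∀ (r : ℕ) (τ : E r), ver τ = 0 → (∀ a, ∃ m : ℤ, hor τ a = m) →
  (fun A => (fun z => τ + z) '' A) '' tiles r = tiles r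

/-- [LIN] copy of `s_LIN` in `Pool.Agent.L7h46.CE.Lin` (it uses nothing else about the tiling). -/
def S_LIN : Prop := ∀ (r : ℕ) (T : Set (Set (E r))),
  (∀ τ : E r, (fun A => (fun z => τ + z) '' A) '' T = T →
    ver τ = 0 ∧ ∀ a, ∃ m : ℤ, hor τ a = m) →
  (∀ τ : E r, ver τ = 0 → (∀ a, ∃ m : ℤ, hor τ a = m) →
    (fun A => (fun z => τ + z) '' A) '' T = T) →
  ∀ g : E r ≃ᵢ E r, (fun A => g '' A) '' T = T →
  ∃ (σ : Equiv.Perm (Fin r)) (s b : Fin r → ℝ) (δ β : ℝ), (∀ a, s a = 1 ∨ s a = -1) ∧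
    (δ = 1 ∨ δ = -1) ∧ ∀ z, (∀ a, hor (g z) (σ a) = s a * hor z a + b (σ a)) ∧
      ver (g z) = δ * ver z + β

/-- [NON] 80 lines, from `S_LIN`, `S_TRA`, `S_PER`, `S_MAP`. Let `g` map the tiling to itself and `tile 0 0` to
`tile 2 0`. If `δ = 1` then `β = 2` (`S_MAP`), `tile i 0` is mapped to some `tile (i + 2) μ` and
`vz r (i + 2) (σ a) = s a * vz r i a` for all `i`, `a`. For `i = 0`, `a = 0` the right side is `- s 0` and the
left side is `≥ 0` (`vz r j c ≥ 0` if `j / 2 ≠ 0`), so `s 0 = -1`; for `i = 2 r`, `a = 0` the right side is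
`s 0 = -1` and the left side is `≥ 0`. If `δ = -1` then `β = 3`, `tile i 0` is mapped to some
`tile (2 - i) μ` and `vz r (2 - i) (σ a) = - s a * vz r i a`. For `i = 0`: `0 ≤ s 0`, so `s 0 = 1`; for
`i = 2 r`: `0 ≤ vz r (2 - 2 r) (σ 0) = - s 0 = - 1` (note `(2 - 2 r) / 2 = 1 - r ≠ 0`). -/
def S_NON : Prop := ∀ r : ℕ, 2 ≤ r → ¬ Isohedral (tiles r)

/-- the final theorem (`n = r + 1`) -/
def S_FINAL : Prop := ∀ r K : ℕ, 2 ≤ r → K + 1 ≤ r → ∃ T : Set (Set (E r)), IsTiling T ∧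
  Monohedral T ∧ (∀ m : ℕ, m ≤ K → CondB T m) ∧ ¬ Isohedral T

end Pool.Agent.L7h31.CP
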